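import Pool.Agent.Q229.MW.Base

/-! # Project MW (helper229), job U1: disjoint union is an OR-composition for k-CLIQUE -/

set_option autoImplicit false

namespace Pool.Agent.Q241.MW

open Pool.Agent.NPC Pool.Agent.Q229.MW

lemma mem_dunion1 (Gs : List Graph) (x : ℕ) : x ∈ (dunion Gs).1 ↔
    ∃ (G : Graph) (i : ℕ), Gs[i]? = some G ∧ ∃ v ∈ G.1, v * Gs.length + i = x := by
  unfold dunion shift
  simp only [List.mem_flatMap, List.mem_map]
  constructor
  · rintro ⟨⟨G, i⟩, hp, v, hv, hx⟩
    exact ⟨G, i, List.mem_zipIdx_iff_getElem?.1 hp, v, hv, hx⟩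
  · rintro ⟨G, i, hp, v, hv, hx⟩
    exact ⟨⟨G, i⟩, List.mem_zipIdx_iff_getElem?.2 hp, v, hv, hx⟩

lemma mem_dunion2 (Gs : List Graph) (x y : ℕ) : (x, y) ∈ (dunion Gs).2 ↔
    ∃ (G : Graph) (i : ℕ), Gs[i]? = some G ∧ ∃ u v, (u, v) ∈ G.2 ∧ u * Gs.length + i = x ∧
      v * Gs.length + i = y := by
  unfold dunion shift
  simp only [List.mem_flatMap, List.mem_map]
  constructor
  · rintro ⟨⟨G, i⟩, hp, ⟨u, v⟩, hv, hx⟩
    exact ⟨G, i, List.mem_zipIdx_iff_getElem?.1 hp, u, v, hv, (Prod.mk.inj hx).1, (Prod.mk.inj hx).2⟩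
  · rintro ⟨G, i, hp, u, v, hv, hx, hy⟩
    exact ⟨⟨G, i⟩, List.mem_zipIdx_iff_getElem?.2 hp, (u, v), hv, by simp only [hx, hy]⟩

lemma mod_div (t v i : ℕ) (hi : i < t) : (v * t + i) % t = i ∧ (v * t + i) / t = v := by
  have ht : 0 < t := by omega
  constructor
  · rw [Nat.add_comm, Nat.add_mul_mod_self_right, Nat.mod_eq_of_lt hi]
  · rw [Nat.add_comm, Nat.add_mul_div_right _ _ ht, Nat.div_eq_of_lt hi, Nat.zero_add]

theorem U1 (Gs : List Graph) (h : Gs ≠ []) (k : ℕ) :
    HasClique (dunion Gs) k ↔ ∃ G ∈ Gs, HasClique G k := by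
  classical
  set t := Gs.length with ht
  have hlt : ∀ (i : ℕ) (G : Graph), Gs[i]? = some G → i < t := by
    intro i G hG
    exact (List.getElem?_eq_some_iff.1 hG).1
  constructor
  · rintro ⟨S, hS, hS1, hS2⟩
    rcases S.eq_empty_or_nonempty with rfl | ⟨v₀, hv₀⟩
    · obtain ⟨G, hG⟩ := List.exists_mem_of_ne_nil Gs h
      exact ⟨G, hG, ∅, hS, by simp, by simp⟩
    · obtain ⟨G, i, hG, w₀, hw₀, hw₀'⟩ := (mem_dunion1 Gs v₀).1 (hS1 v₀ hv₀)
      rw [← ht] at hw₀'
      have hi := hlt i G hG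
      have hmod₀ : v₀ % t = i := by rw [← hw₀']; exact (mod_div t w₀ i hi).1
      have hmod : ∀ u ∈ S, u % t = i := by
        intro u hu
        by_cases huv : u = v₀
        · rw [huv, hmod₀]
        · rcases hS2 u hu v₀ hv₀ huv with he | he
          · obtain ⟨G', i', hG', a, b, _, ha, hb⟩ := (mem_dunion2 Gs u v₀).1 he
            rw [← ht] at ha hb
            have hi' := hlt i' G' hG'
            rw [← ha, (mod_div t a i' hi').1, ← hmod₀, ← hb, (mod_div t b i' hi').1]
          · obtain ⟨G', i', hG', a, b, _, ha, hb⟩ := (mem_dunion2 Gs v₀ u).1 he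
            rw [← ht] at ha hb
            have hi' := hlt i' G' hG'
            rw [← hb, (mod_div t b i' hi').1, ← hmod₀, ← ha, (mod_div t a i' hi').1]
      have hrep : ∀ u ∈ S, u / t * t + i = u := by
        intro u hu
        have e1 := Nat.div_add_mod u t
        rw [hmod u hu] at e1
        rw [Nat.mul_comm]
        exact e1
      refine ⟨G, List.mem_of_getElem? hG, S.image (fun u => u / t), ?_, ?_, ?_⟩
      · rw [Finset.card_image_of_injOn, hS]
        intro u hu u' hu' huu
        have e1 := hrep u hu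
        have e2 := hrep u' hu'
        simp only at huu
        rw [huu] at e1
        exact e1.symm.trans e2
      · intro v hv
        obtain ⟨u, hu, rfl⟩ := Finset.mem_image.1 hv
        obtain ⟨G', i', hG', w, hw, hw'⟩ := (mem_dunion1 Gs u).1 (hS1 u hu)
        rw [← ht] at hw'
        have hi' := hlt i' G' hG'
        have e1 : i' = i := by rw [← hmod u hu, ← hw', (mod_div t w i' hi').1]
        subst e1
        have e2 : G' = G := Option.some.inj (hG'.symm.trans hG)
        subst e2
        rw [← hw', (mod_div t w i' hi').2]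
        exact hw
      · intro v hv v' hv' hne
        obtain ⟨u, hu, rfl⟩ := Finset.mem_image.1 hv
        obtain ⟨u', hu', rfl⟩ := Finset.mem_image.1 hv'
        have key : ∀ x ∈ S, ∀ y ∈ S, (x, y) ∈ (dunion Gs).2 → (x / t, y / t) ∈ G.2 := by
          intro x hx y hy hxy
          obtain ⟨G', i', hG', a, b, hab, ha, hb⟩ := (mem_dunion2 Gs x y).1 hxy
          rw [← ht] at ha hb
          have hi' := hlt i' G' hG'
          have e1 : i' = i := by rw [← hmod x hx, ← ha, (mod_div t a i' hi').1]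
          subst e1
          have e2 : G' = G := Option.some.inj (hG'.symm.trans hG)
          subst e2
          rw [← ha, ← hb, (mod_div t a i' hi').2, (mod_div t b i' hi').2]
          exact hab
        rcases hS2 u hu u' hu' (fun he => hne (by rw [he])) with he | he
        · exact Or.inl (key u hu u' hu' he)
        · exact Or.inr (key u' hu' u hu he)
  · rintro ⟨G, hG, S, hS, hS1, hS2⟩
    obtain ⟨i, hi⟩ := List.mem_iff_getElem?.1 hG
    have hit := hlt i G hi
    have ht0 : 0 < t := by omega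
    refine ⟨S.image (fun v => v * t + i), ?_, ?_, ?_⟩
    · rw [Finset.card_image_of_injective _ _, hS]
      intro v v' hvv
      simp only at hvv
      exact Nat.eq_of_mul_eq_mul_right ht0 (by omega)
    · intro x hx
      obtain ⟨v, hv, rfl⟩ := Finset.mem_image.1 hx
      exact (mem_dunion1 Gs _).2 ⟨G, i, hi, v, hS1 v hv, rfl⟩
    · intro x hx y hy hne
      obtain ⟨v, hv, rfl⟩ := Finset.mem_image.1 hx
      obtain ⟨v', hv', rfl⟩ := Finset.mem_image.1 hy
      rcases hS2 v hv v' hv' (fun he => hne (by rw [he])) with he | he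
      · exact Or.inl ((mem_dunion2 Gs _ _).2 ⟨G, i, hi, v, v', he, rfl, rfl⟩)
      · exact Or.inr ((mem_dunion2 Gs _ _).2 ⟨G, i, hi, v', v, he, rfl, rfl⟩)

end Pool.Agent.Q241.MW
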